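import Pool.Agent.H73.PHS.Stmts

/-!
# Row DBR of the board `phs`: the equation `dbar u = α` with compact support
-/

set_option autoImplicit false

open Set Filter Topology MeasureTheory Metric

namespace Pool.PHS

theorem DBR53_loc : LocallyIntegrable (fun ζ : ℂ => ‖ζ‖⁻¹) volume := by
  refine locallyIntegrable_of_norm_le_rpow (C := 1) (α := 1) ?_ ?_ ?_ ?_
  · rw [Complex.finrank_real_complex]
    norm_num
  · rw [Complex.finrank_real_complex]
    norm_num
  · refine Eventually.of_forall fun ζ => ?_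
    rw [Real.rpow_neg (norm_nonneg _), Real.rpow_one, one_mul, norm_inv, norm_norm]
  · exact (measurable_norm.inv).aestronglyMeasurable

/-- A continuous function with compact support divided by the variable is integrable. -/
theorem DBR53_int (g : ℂ → ℂ) (hg : Continuous g) (hc : HasCompactSupport g) :
    Integrable (fun ζ : ℂ => g ζ / ζ) := by
  have h1 := DBR53_loc.integrable_smul_left_of_hasCompactSupport (g := fun ζ => ‖g ζ‖) hg.norm
    hc.norm
  refine Integrable.mono' h1 (hg.measurable.div measurable_id).aestronglyMeasurable ?_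
  refine Eventually.of_forall fun ζ => ?_
  rw [norm_div, smul_eq_mul, div_eq_mul_inv]

theorem DBR53_bd {n : ℕ} {F : Type} [NormedAddCommGroup F] (a : Cn n → F)
    (hc : HasCompactSupport a) : ∃ R : ℝ, ∀ z, R < ‖z‖ → a z = 0 := by
  obtain ⟨R, hR⟩ := (hc.isCompact.isBounded).subset_closedBall (0 : Cn n)
  refine ⟨R, fun z hz => ?_⟩
  by_contra hne
  have h1 := hR (subset_tsupport a hne)
  rw [mem_closedBall, dist_zero_right] at h1
  linarith

theorem DBR53_sup {n : ℕ} (i : Fin n) (a : Cn n → ℂ) (hc : HasCompactSupport a) (z : Cn n) :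
    HasCompactSupport (fun ζ : ℂ => a (z + Pi.single i ζ)) := by
  obtain ⟨R, hR⟩ := DBR53_bd a hc
  refine HasCompactSupport.intro (isCompact_closedBall (0 : ℂ) (R + ‖z i‖)) fun ζ hζ => ?_
  rw [mem_closedBall, dist_zero_right, not_le] at hζ
  apply hR
  have h1 : (z + Pi.single i ζ : Cn n) i = z i + ζ := by
    rw [Pi.add_apply, Pi.single_eq_same]
  have h2 : ‖z i + ζ‖ ≤ ‖(z + Pi.single i ζ : Cn n)‖ := by
    rw [← h1]
    exact norm_le_pi_norm _ i
  have h3 : ‖ζ‖ ≤ ‖z i + ζ‖ + ‖z i‖ := by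
    calc ‖ζ‖ = ‖(z i + ζ) - z i‖ := by rw [add_sub_cancel_left]
      _ ≤ _ := norm_sub_le _ _
  linarith

theorem DBR53_fd {n : ℕ} (i : Fin n) (a : Cn n → ℂ) (ha : ContDiff ℝ 1 a) (z : Cn n) (ζ h : ℂ) :
    fderiv ℝ (fun w : ℂ => a (z + Pi.single i w)) ζ h =
      fderiv ℝ a (z + Pi.single i ζ) (Pi.single i h) := by
  have h1 : HasFDerivAt (fun w : ℂ => z + (ContinuousLinearMap.single ℝ (fun _ : Fin n => ℂ) i) w)
      (ContinuousLinearMap.single ℝ (fun _ : Fin n => ℂ) i) ζ :=
    (ContinuousLinearMap.hasFDerivAt _).const_add z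
  have h2 : HasFDerivAt a (fderiv ℝ a (z + Pi.single i ζ)) (z + Pi.single i ζ) :=
    (ha.differentiable (by norm_num) _).hasFDerivAt
  have h3 : HasFDerivAt (fun w : ℂ => a (z + Pi.single i w))
      ((fderiv ℝ a (z + Pi.single i ζ)).comp
        (ContinuousLinearMap.single ℝ (fun _ : Fin n => ℂ) i)) ζ := h2.comp ζ h1
  rw [h3.fderiv]
  rfl

theorem DBR53_cd {n : ℕ} (i : Fin n) (a : Cn n → ℂ) (ha : ContDiff ℝ 1 a) (z : Cn n) :
    ContDiff ℝ 1 (fun w : ℂ => a (z + Pi.single i w)) := by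
  have h1 : ContDiff ℝ 1
      (fun w : ℂ => z + (ContinuousLinearMap.single ℝ (fun _ : Fin n => ℂ) i) w) :=
    contDiff_const.add (ContinuousLinearMap.contDiff _)
  exact ha.comp h1

theorem DBR_thm (h1 : PMPStmt) (h2 : DUIStmt) : DBRStmt := by
  intro n i j hij α hα hαc hsym
  obtain ⟨t1, t2⟩ := h2 n i (α i) (hα i) (hαc i)
  obtain ⟨T, hT⟩ : ∃ T : Cn n → ℂ,
    T = fun z : Cn n => ∫ ζ : ℂ, α i (z + Pi.single i ζ : Cn n) / ζ := ⟨_, rfl⟩
  rw [← hT] at t1 t2
  obtain ⟨c, hc⟩ : ∃ c : ℂ, c = -(1 / (2 * (Real.pi : ℂ))) := ⟨_, rfl⟩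
  have hpi : (2 * (Real.pi : ℂ)) ≠ 0 := by
    have := Real.pi_ne_zero
    exact_mod_cast mul_ne_zero two_ne_zero this
  refine ⟨fun z => c * T z, contDiff_const.mul t1, ?_, ?_⟩
  · intro k z
    have hfd : ∀ v : Cn n, fderiv ℝ (fun z => c * T z) z v = c * fderiv ℝ T z v := by
      intro v
      rw [fderiv_const_mul ((t1.differentiable (by norm_num)) z)]
      rfl
    have hcont : Continuous (fderiv ℝ (α i)) := (hα i).continuous_fderiv (by norm_num)
    have hint : ∀ v : Cn n,
        Integrable (fun ζ : ℂ => fderiv ℝ (α i) (z + Pi.single i ζ : Cn n) v / ζ) := by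
      intro v
      refine DBR53_int _ ?_ ?_
      · have h3 : Continuous (fun ζ : ℂ => (z + Pi.single i ζ : Cn n)) :=
          continuous_const.add
            (ContinuousLinearMap.single ℝ (fun _ : Fin n => ℂ) i).continuous
        exact (hcont.comp h3).clm_apply continuous_const
      · exact DBR53_sup i (fun y => fderiv ℝ (α i) y v) ((hαc i).fderiv_apply ℝ v) z
    have h5 : ∫ ζ : ℂ, dbar k (α i) (z + Pi.single i ζ : Cn n) / ζ =
        (∫ ζ : ℂ, fderiv ℝ (α i) (z + Pi.single i ζ : Cn n) (Pi.single k 1) / ζ) +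
          Complex.I *
            ∫ ζ : ℂ, fderiv ℝ (α i) (z + Pi.single i ζ : Cn n) (Pi.single k Complex.I) / ζ := by
      rw [← integral_const_mul]
      have h6 := integral_add (hint (Pi.single k 1))
        ((hint (Pi.single k Complex.I)).const_mul Complex.I)
      rw [← h6]
      refine integral_congr_ae (Eventually.of_forall fun ζ => ?_)
      show dbar k (α i) (z + Pi.single i ζ : Cn n) / ζ =
        fderiv ℝ (α i) (z + Pi.single i ζ : Cn n) (Pi.single k 1) / ζ +
          Complex.I *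
            (fderiv ℝ (α i) (z + Pi.single i ζ : Cn n) (Pi.single k Complex.I) / ζ)
      unfold dbar
      ring
    have hdb : dbar k (fun z => c * T z) z =
        c * ∫ ζ : ℂ, dbar k (α i) (z + Pi.single i ζ : Cn n) / ζ := by
      rw [h5]
      have h7 : dbar k (fun z => c * T z) z =
          fderiv ℝ (fun z => c * T z) z (Pi.single k 1) +
            Complex.I * fderiv ℝ (fun z => c * T z) z (Pi.single k Complex.I) := rfl
      rw [h7, hfd, hfd, t2, t2]
      ring
    have g1 := DBR53_cd i (α k) (hα k) z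
    have g2 := DBR53_sup i (α k) (hαc k) z
    have hP := h1 _ g1 g2 0
    have h4 : ∀ ζ : ℂ, (fderiv ℝ (fun w : ℂ => α k (z + Pi.single i w)) (0 + ζ) 1 +
        Complex.I * fderiv ℝ (fun w : ℂ => α k (z + Pi.single i w)) (0 + ζ) Complex.I) / ζ =
        dbar k (α i) (z + Pi.single i ζ : Cn n) / ζ := by
      intro ζ
      rw [zero_add, DBR53_fd i (α k) (hα k), DBR53_fd i (α k) (hα k), hsym k i]
      rfl
    simp only [h4] at hP
    rw [hdb, hP, Pi.single_zero, add_zero, hc]
    push_cast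
    field_simp
  · obtain ⟨R, hR⟩ := DBR53_bd (α i) (hαc i)
    refine ⟨R, fun z hz => ?_⟩
    have h3 : ∀ ζ : ℂ, α i (z + Pi.single i ζ : Cn n) / ζ = 0 := by
      intro ζ
      have h4 : (z + Pi.single i ζ : Cn n) j = z j := by
        rw [Pi.add_apply, Pi.single_eq_of_ne hij.symm, add_zero]
      have h5 : ‖z j‖ ≤ ‖(z + Pi.single i ζ : Cn n)‖ := by
        rw [← h4]
        exact norm_le_pi_norm _ j
      rw [hR _ (hz.trans_le h5), zero_div]
    show c * T z = 0
    rw [hT]
    simp only [h3, integral_zero, mul_zero]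

end Pool.PHS
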